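import Pool.Agent.Helper12_UNF.Stmts
import Pool.Agent.Helper50_Art.Com
import Pool.Agent.Helper63_Art.Semi
import Pool.Agent.Helper69_Art.Free

set_option autoImplicit false
set_option linter.unusedSimpArgs false

/-!
# Squad UNF, module BRB: type `B` is a semidirect product of a free group by type `A`
-/

namespace Unf.H81

open Art

/-! ## Homomorphisms from and relations in types A and B -/

theorem A_adj {n : ℕ} {i j : Fin n} (h : i.1 + 1 = j.1) : (CoxeterMatrix.A n).M i j = 3 := by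
  have hne : i ≠ j := by
    intro e
    rw [e] at h
    omega
  simp only [CoxeterMatrix.A, Matrix.of_apply, if_neg hne]
  rw [if_pos (Or.inr h)]

theorem A_far {n : ℕ} {i j : Fin n} (h : i.1 + 2 ≤ j.1) : (CoxeterMatrix.A n).M i j = 2 := by
  have hne : i ≠ j := by
    intro e
    rw [e] at h
    omega
  simp only [CoxeterMatrix.A, Matrix.of_apply, if_neg hne]
  rw [if_neg (by omega)]

theorem liftA {n : ℕ} {G : Type} [Group G] (f : Fin n → G)
    (h1 : ∀ i j : Fin n, i.1 + 1 = j.1 → f i * f j * f i = f j * f i * f j)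
    (h2 : ∀ i j : Fin n, i.1 + 2 ≤ j.1 → f i * f j = f j * f i) :
    ∃ Φ : Gp (CoxeterMatrix.A n) →* G, ∀ i, Φ (gen _ i) = f i := by
  apply lift
  have key : ∀ s t : Fin n, s.1 < t.1 →
      alt ((CoxeterMatrix.A n).M s t) (f s) (f t) = alt ((CoxeterMatrix.A n).M s t) (f t) (f s) := by
    intro s t hst
    rcases Nat.lt_or_ge (s.1 + 1) t.1 with h | h
    · rw [A_far (by omega), alt_two, alt_two, h2 s t (by omega)]
    · rw [A_adj (by omega), Art.H50.alt3, Art.H50.alt3, h1 s t (by omega)]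
  intro s t _
  rcases lt_trichotomy s.1 t.1 with h | h | h
  · exact key s t h
  · rw [Fin.ext h]
  · rw [(CoxeterMatrix.A n).symmetric s t]
    exact (key t s h).symm

theorem relA_adj {n : ℕ} {i j : Fin n} (h : i.1 + 1 = j.1) :
    gen (CoxeterMatrix.A n) i * gen _ j * gen _ i = gen _ j * gen _ i * gen _ j := by
  have := relHolds (CoxeterMatrix.A n) i j (by rw [A_adj h]; norm_num)
  rwa [A_adj h, Art.H50.alt3, Art.H50.alt3] at this

theorem relA_far {n : ℕ} {i j : Fin n} (h : i.1 + 2 ≤ j.1) :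
    gen (CoxeterMatrix.A n) i * gen _ j = gen _ j * gen _ i := by
  have := relHolds (CoxeterMatrix.A n) i j (by rw [A_far h]; norm_num)
  rwa [A_far h, alt_two, alt_two] at this

theorem B_adj {n : ℕ} {i j : Fin (n + 1)} (h : i.1 + 1 = j.1) (hj : j.1 < n) :
    (CoxeterMatrix.B (n + 1)).M i j = 3 := by
  have hne : i ≠ j := by
    intro e
    rw [e] at h
    omega
  simp only [CoxeterMatrix.B, Matrix.of_apply, if_neg hne]
  rw [if_neg (by omega), if_pos (Or.inr h)]

theorem B_last {n : ℕ} {i j : Fin (n + 1)} (h : i.1 + 1 = j.1) (hj : j.1 = n) :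
    (CoxeterMatrix.B (n + 1)).M i j = 4 := by
  have hne : i ≠ j := by
    intro e
    rw [e] at h
    omega
  simp only [CoxeterMatrix.B, Matrix.of_apply, if_neg hne]
  rw [if_pos (by omega)]

theorem B_far {n : ℕ} {i j : Fin (n + 1)} (h : i.1 + 2 ≤ j.1) :
    (CoxeterMatrix.B (n + 1)).M i j = 2 := by
  have hne : i ≠ j := by
    intro e
    rw [e] at h
    omega
  simp only [CoxeterMatrix.B, Matrix.of_apply, if_neg hne]
  rw [if_neg (by omega), if_neg (by omega)]

theorem liftB {n : ℕ} {G : Type} [Group G] (f : Fin (n + 1) → G)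
    (h1 : ∀ i j : Fin (n + 1), i.1 + 1 = j.1 → j.1 < n → f i * f j * f i = f j * f i * f j)
    (h2 : ∀ i j : Fin (n + 1), i.1 + 2 ≤ j.1 → f i * f j = f j * f i)
    (h3 : ∀ i j : Fin (n + 1), i.1 + 1 = j.1 → j.1 = n →
      f i * f j * f i * f j = f j * f i * f j * f i) :
    ∃ Φ : Gp (CoxeterMatrix.B (n + 1)) →* G, ∀ i, Φ (gen _ i) = f i := by
  apply lift
  have key : ∀ s t : Fin (n + 1), s.1 < t.1 →
      alt ((CoxeterMatrix.B (n + 1)).M s t) (f s) (f t) =
        alt ((CoxeterMatrix.B (n + 1)).M s t) (f t) (f s) := by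
    intro s t hst
    rcases Nat.lt_or_ge (s.1 + 1) t.1 with h | h
    · rw [B_far (by omega), alt_two, alt_two, h2 s t (by omega)]
    · rcases Nat.lt_or_ge t.1 n with h' | h'
      · rw [B_adj (by omega) h', Art.H50.alt3, Art.H50.alt3, h1 s t (by omega) h']
      · have ht : t.1 = n := by have := t.2; omega
        rw [B_last (by omega) ht, Art.H50.alt4, Art.H50.alt4, h3 s t (by omega) ht]
  intro s t _
  rcases lt_trichotomy s.1 t.1 with h | h | h
  · exact key s t h
  · rw [Fin.ext h]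
  · rw [(CoxeterMatrix.B (n + 1)).symmetric s t]
    exact (key t s h).symm

theorem relB_adj {n : ℕ} {i j : Fin (n + 1)} (h : i.1 + 1 = j.1) (hj : j.1 < n) :
    gen (CoxeterMatrix.B (n + 1)) i * gen _ j * gen _ i = gen _ j * gen _ i * gen _ j := by
  have := relHolds (CoxeterMatrix.B (n + 1)) i j (by rw [B_adj h hj]; norm_num)
  rwa [B_adj h hj, Art.H50.alt3, Art.H50.alt3] at this

theorem relB_last {n : ℕ} {i j : Fin (n + 1)} (h : i.1 + 1 = j.1) (hj : j.1 = n) :
    gen (CoxeterMatrix.B (n + 1)) i * gen _ j * gen _ i * gen _ j =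
      gen _ j * gen _ i * gen _ j * gen _ i := by
  have := relHolds (CoxeterMatrix.B (n + 1)) i j (by rw [B_last h hj]; norm_num)
  rwa [B_last h hj, Art.H50.alt4, Art.H50.alt4] at this

theorem relB_far {n : ℕ} {i j : Fin (n + 1)} (h : i.1 + 2 ≤ j.1) :
    gen (CoxeterMatrix.B (n + 1)) i * gen _ j = gen _ j * gen _ i := by
  have := relHolds (CoxeterMatrix.B (n + 1)) i j (by rw [B_far h]; norm_num)
  rwa [B_far h, alt_two, alt_two] at this

/-! ## The action of type A on the free group -/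

/-- The free group. -/
abbrev Fr (n : ℕ) : Type := FreeGroup (Fin (n + 1))

abbrev X {n : ℕ} (j : Fin (n + 1)) : Fr n := FreeGroup.of j

/-- The images of the generators. -/
def sf {n : ℕ} (i : Fin n) (j : Fin (n + 1)) : Fr n :=
  if j = i.castSucc then (X i.castSucc)⁻¹ * X i.succ * X i.castSucc
    else if j = i.succ then X i.castSucc else X j

/-- The images of the generators under the inverse. -/
def sg {n : ℕ} (i : Fin n) (j : Fin (n + 1)) : Fr n :=
  if j = i.castSucc then X i.succ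
    else if j = i.succ then X i.succ * X i.castSucc * (X i.succ)⁻¹ else X j

theorem cs_ne {n : ℕ} (i : Fin n) : i.castSucc ≠ i.succ := by
  intro h
  have := congrArg Fin.val h
  simp at this

theorem sf_a {n : ℕ} (i : Fin n) :
    sf i i.castSucc = (X i.castSucc)⁻¹ * X i.succ * X i.castSucc := by simp [sf]

theorem sf_b {n : ℕ} (i : Fin n) : sf i i.succ = X i.castSucc := by
  simp [sf, (cs_ne i).symm]

theorem sf_c {n : ℕ} (i : Fin n) (j : Fin (n + 1)) (h1 : j ≠ i.castSucc) (h2 : j ≠ i.succ) :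
    sf i j = X j := by simp [sf, h1, h2]

theorem sg_a {n : ℕ} (i : Fin n) : sg i i.castSucc = X i.succ := by simp [sg]

theorem sg_b {n : ℕ} (i : Fin n) : sg i i.succ = X i.succ * X i.castSucc * (X i.succ)⁻¹ := by
  simp [sg, (cs_ne i).symm]

theorem sg_c {n : ℕ} (i : Fin n) (j : Fin (n + 1)) (h1 : j ≠ i.castSucc) (h2 : j ≠ i.succ) :
    sg i j = X j := by simp [sg, h1, h2]

/-- The automorphism. -/
def sig {n : ℕ} (i : Fin n) : MulAut (Fr n) := Art.H50.aut (sf i) (sg i)
  (by
    intro j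
    by_cases h1 : j = i.castSucc
    · subst h1
      rw [sf_a, map_mul, map_mul, map_inv, FreeGroup.lift_apply_of, FreeGroup.lift_apply_of,
        sg_a, sg_b]
      group
    by_cases h2 : j = i.succ
    · subst h2
      rw [sf_b, FreeGroup.lift_apply_of, sg_a]
    · rw [sf_c i j h1 h2, FreeGroup.lift_apply_of, sg_c i j h1 h2])
  (by
    intro j
    by_cases h1 : j = i.castSucc
    · subst h1
      rw [sg_a, FreeGroup.lift_apply_of, sf_b]
    by_cases h2 : j = i.succ
    · subst h2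
      rw [sg_b, map_mul, map_mul, map_inv, FreeGroup.lift_apply_of, FreeGroup.lift_apply_of,
        sf_a, sf_b]
      group
    · rw [sg_c i j h1 h2, FreeGroup.lift_apply_of, sf_c i j h1 h2])

theorem sig_a {n : ℕ} (i : Fin n) (a : Fin (n + 1)) (ha : a.1 = i.1) (b : Fin (n + 1))
    (hb : b.1 = i.1 + 1) : sig i (X a) = (X a)⁻¹ * X b * X a := by
  have ha' : a = i.castSucc := Fin.ext ha
  have hb' : b = i.succ := Fin.ext (by rw [hb, Fin.val_succ])
  subst ha' hb'
  exact (Art.H50.aut_of _ _ _ _ _).trans (sf_a i)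

theorem sig_b {n : ℕ} (i : Fin n) (a : Fin (n + 1)) (ha : a.1 = i.1) (b : Fin (n + 1))
    (hb : b.1 = i.1 + 1) : sig i (X b) = X a := by
  have ha' : a = i.castSucc := Fin.ext ha
  have hb' : b = i.succ := Fin.ext (by rw [hb, Fin.val_succ])
  subst ha' hb'
  exact (Art.H50.aut_of _ _ _ _ _).trans (sf_b i)

theorem sig_c {n : ℕ} (i : Fin n) (j : Fin (n + 1)) (h1 : j.1 ≠ i.1) (h2 : j.1 ≠ i.1 + 1) :
    sig i (X j) = X j := by
  refine (Art.H50.aut_of _ _ _ _ _).trans (sf_c i j ?_ ?_)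
  · intro h
    exact h1 (by rw [h]; rfl)
  · intro h
    exact h2 (by rw [h, Fin.val_succ])

theorem sig_braid {n : ℕ} (i j : Fin n) (h : i.1 + 1 = j.1) :
    sig i * sig j * sig i = sig j * sig i * sig j := by
  obtain ⟨a, ha⟩ : ∃ a : Fin (n + 1), a.1 = i.1 := ⟨i.castSucc, rfl⟩
  obtain ⟨b, hb⟩ : ∃ b : Fin (n + 1), b.1 = j.1 := ⟨j.castSucc, rfl⟩
  obtain ⟨c, hc⟩ : ∃ c : Fin (n + 1), c.1 = j.1 + 1 := ⟨j.succ, Fin.val_succ j⟩
  have ia := sig_a i a ha b (by omega)
  have ib := sig_b i a ha b (by omega)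
  have ic := sig_c i c (by omega) (by omega)
  have ja := sig_c j a (by omega) (by omega)
  have jb := sig_a j b hb c hc
  have jc := sig_b j b hb c hc
  apply Art.H50.mulAut_ext
  intro k
  change sig i (sig j (sig i (X k))) = sig j (sig i (sig j (X k)))
  by_cases h1 : k.1 = a.1
  · rw [Fin.ext h1]
    simp only [ia, ib, ic, ja, jb, jc, map_mul, map_inv]
    group
  by_cases h2 : k.1 = b.1
  · rw [Fin.ext h2]
    simp only [ia, ib, ic, ja, jb, jc, map_mul, map_inv]
  by_cases h3 : k.1 = c.1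
  · rw [Fin.ext h3]
    simp only [ia, ib, ic, ja, jb, jc, map_mul, map_inv]
  · have e1 := sig_c i k (by omega) (by omega)
    have e2 := sig_c j k (by omega) (by omega)
    rw [e1, e2, e1, e2]

theorem sig_far {n : ℕ} (i j : Fin n) (h : i.1 + 2 ≤ j.1) :
    sig i * sig j = sig j * sig i := by
  obtain ⟨a, ha⟩ : ∃ a : Fin (n + 1), a.1 = i.1 := ⟨i.castSucc, rfl⟩
  obtain ⟨b, hb⟩ : ∃ b : Fin (n + 1), b.1 = i.1 + 1 := ⟨i.succ, Fin.val_succ i⟩
  obtain ⟨c, hc⟩ : ∃ c : Fin (n + 1), c.1 = j.1 := ⟨j.castSucc, rfl⟩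
  obtain ⟨d, hd⟩ : ∃ c : Fin (n + 1), c.1 = j.1 + 1 := ⟨j.succ, Fin.val_succ j⟩
  have ia := sig_a i a ha b hb
  have ib := sig_b i a ha b hb
  have ic := sig_c i c (by omega) (by omega)
  have id' := sig_c i d (by omega) (by omega)
  have ja := sig_c j a (by omega) (by omega)
  have jb := sig_c j b (by omega) (by omega)
  have jc := sig_a j c hc d hd
  have jd := sig_b j c hc d hd
  apply Art.H50.mulAut_ext
  intro k
  change sig i (sig j (X k)) = sig j (sig i (X k))
  by_cases h1 : k.1 = a.1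
  · rw [Fin.ext h1]
    simp only [ia, ib, ic, id', ja, jb, jc, jd, map_mul, map_inv]
  by_cases h2 : k.1 = b.1
  · rw [Fin.ext h2]
    simp only [ia, ib, ic, id', ja, jb, jc, jd, map_mul, map_inv]
  by_cases h3 : k.1 = c.1
  · rw [Fin.ext h3]
    simp only [ia, ib, ic, id', ja, jb, jc, jd, map_mul, map_inv]
  by_cases h4 : k.1 = d.1
  · rw [Fin.ext h4]
    simp only [ia, ib, ic, id', ja, jb, jc, jd, map_mul, map_inv]
  · have e1 := sig_c i k (by omega) (by omega)
    have e2 := sig_c j k (by omega) (by omega)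
    rw [e1, e2, e1]

theorem exists_phi (n : ℕ) : ∃ φ : Gp (CoxeterMatrix.A n) →* MulAut (Fr n),
    ∀ i, φ (gen _ i) = sig i := liftA sig sig_braid sig_far

/-! ## The conjugates of the last generator -/

section Conj

variable {G : Type} [Group G]

/-- The conjugates `T_j`, by downward recursion: `cj s t k = T_(n-k)`. -/
def cj (n : ℕ) (s : ℕ → G) (t : G) : ℕ → G
  | 0 => t
  | k + 1 => s (n - (k + 1)) * cj n s t k * (s (n - (k + 1)))⁻¹

/-- The conjugate `T_j`. -/
def TT (n : ℕ) (s : ℕ → G) (t : G) (j : ℕ) : G := cj n s t (n - j)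

theorem TT_last (n : ℕ) (s : ℕ → G) (t : G) : TT n s t n = t := by
  simp [TT, cj]

theorem TT_step (n : ℕ) (s : ℕ → G) (t : G) (j : ℕ) (hj : j < n) :
    TT n s t j = s j * TT n s t (j + 1) * (s j)⁻¹ := by
  obtain ⟨k, hk⟩ : ∃ k, n - j = k + 1 := ⟨n - j - 1, by omega⟩
  have h1 : n - (j + 1) = k := by omega
  have h2 : n - (k + 1) = j := by omega
  simp only [TT, hk, h1, cj, h2]

variable {n : ℕ} {s : ℕ → G} {t : G}

theorem TT_comm1 (h2 : ∀ i j, i + 2 ≤ j → j < n → s i * s j = s j * s i)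
    (h4 : ∀ i, i + 1 < n → s i * t = t * s i) (i : ℕ) :
    ∀ k, ∀ j, j + k = n → i + 2 ≤ j → s i * TT n s t j = TT n s t j * s i := by
  intro k
  induction k with
  | zero =>
    intro j hj hij
    have : j = n := by omega
    subst this
    rw [TT_last]
    exact h4 i (by omega)
  | succ k ih =>
    intro j hj hij
    rw [TT_step n s t j (by omega)]
    have e1 := h2 i j hij (by omega)
    have e2 := ih (j + 1) (by omega) (by omega)
    have e3 : s i * (s j)⁻¹ = (s j)⁻¹ * s i := by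
      rw [mul_inv_eq_iff_eq_mul, mul_assoc, e1, inv_mul_cancel_left]
    calc s i * (s j * TT n s t (j + 1) * (s j)⁻¹)
        = (s i * s j) * TT n s t (j + 1) * (s j)⁻¹ := by simp only [mul_assoc]
      _ = s j * (s i * TT n s t (j + 1)) * (s j)⁻¹ := by rw [e1]; simp only [mul_assoc]
      _ = s j * TT n s t (j + 1) * (s i * (s j)⁻¹) := by rw [e2]; simp only [mul_assoc]
      _ = s j * TT n s t (j + 1) * (s j)⁻¹ * s i := by rw [e3]; simp only [mul_assoc]

theorem TT_comm2 (h1 : ∀ i, i + 1 < n → s i * s (i + 1) * s i = s (i + 1) * s i * s (i + 1))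
    (h2 : ∀ i j, i + 2 ≤ j → j < n → s i * s j = s j * s i)
    (h4 : ∀ i, i + 1 < n → s i * t = t * s i) (i : ℕ) (hi : i < n) :
    ∀ k, ∀ j, j + 1 + k = i → s i * TT n s t j = TT n s t j * s i := by
  intro k
  induction k with
  | zero =>
    intro j hj
    have hj' : i = j + 1 := by omega
    subst hj'
    rw [TT_step n s t j (by omega), TT_step n s t (j + 1) hi]
    have e1 := h1 j hi
    have e2 := TT_comm1 h2 h4 j (n - (j + 2)) (j + 1 + 1) (by omega) (by omega)
    set T := TT n s t (j + 1 + 1)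
    set x := s j
    set y := s (j + 1)
    -- y (x (y T y⁻¹) x⁻¹) = (x y T y⁻¹ x⁻¹) y
    have e3 : y * (x * (y * T * y⁻¹) * x⁻¹) * y⁻¹ = x * (y * T * y⁻¹) * x⁻¹ := by
      calc y * (x * (y * T * y⁻¹) * x⁻¹) * y⁻¹ = (y * x * y) * T * (y * x * y)⁻¹ := by group
        _ = x * y * (x * T) * x⁻¹ * y⁻¹ * x⁻¹ := by rw [← e1]; group
        _ = x * (y * T * y⁻¹) * x⁻¹ := by rw [e2]; group
    rw [mul_inv_eq_iff_eq_mul] at e3
    exact e3
  | succ k ih =>
    intro j hj
    rw [TT_step n s t j (by omega)]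
    have e1 := h2 j i (by omega) hi
    have e2 := ih (j + 1) (by omega)
    have e3 : s i * (s j)⁻¹ = (s j)⁻¹ * s i := by
      rw [mul_inv_eq_iff_eq_mul, mul_assoc, ← e1, inv_mul_cancel_left]
    calc s i * (s j * TT n s t (j + 1) * (s j)⁻¹)
        = (s i * s j) * TT n s t (j + 1) * (s j)⁻¹ := by simp only [mul_assoc]
      _ = s j * (s i * TT n s t (j + 1)) * (s j)⁻¹ := by rw [← e1]; simp only [mul_assoc]
      _ = s j * TT n s t (j + 1) * (s i * (s j)⁻¹) := by rw [e2]; simp only [mul_assoc]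
      _ = s j * TT n s t (j + 1) * (s j)⁻¹ * s i := by rw [e3]; simp only [mul_assoc]

theorem TT_conj (h1 : ∀ i, i + 1 < n → s i * s (i + 1) * s i = s (i + 1) * s i * s (i + 1))
    (h2 : ∀ i j, i + 2 ≤ j → j < n → s i * s j = s j * s i)
    (h3 : ∀ i, i + 1 = n → s i * t * s i * t = t * s i * t * s i)
    (h4 : ∀ i, i + 1 < n → s i * t = t * s i) :
    ∀ k, ∀ i, i + 1 + k = n → s i * TT n s t i * (s i)⁻¹ =
      (TT n s t i)⁻¹ * TT n s t (i + 1) * TT n s t i := by
  intro k
  induction k with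
  | zero =>
    intro i hi
    have hi' : i + 1 = n := by omega
    have e := h3 i hi'
    rw [TT_step n s t i (by omega), hi', TT_last]
    have e2 : s i * (s i * t * (s i)⁻¹) * (s i)⁻¹ = s i * (t⁻¹ * (s i)⁻¹ * (s i * t * s i * t) * (s i)⁻¹) * (s i)⁻¹ := by
      group
    rw [e2, e]
    group
  | succ k ih =>
    intro i hi
    have e := ih (i + 1) (by omega)
    have b := h1 i (by omega)
    have c1 := TT_comm2 h1 h2 h4 (i + 1) (by omega) 0 i (by omega)
    have c2 := TT_comm1 h2 h4 i k (i + 1 + 1) (by omega) (by omega)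
    have d1 := TT_step n s t i (by omega)
    have d2 := TT_step n s t (i + 1) (by omega)
    set x := s i
    set y := s (i + 1)
    set T0 := TT n s t i
    set T1 := TT n s t (i + 1)
    set T2 := TT n s t (i + 1 + 1)
    have g1 : (y * x) * y * (y * x)⁻¹ = x := by
      calc (y * x) * y * (y * x)⁻¹ = (y * x * y) * x⁻¹ * y⁻¹ := by group
        _ = x := by rw [← b]; group
    have g2 : (y * x) * T1 * (y * x)⁻¹ = T0 := by
      calc (y * x) * T1 * (y * x)⁻¹ = y * (x * T1 * x⁻¹) * y⁻¹ := by group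
        _ = (y * T0) * y⁻¹ := by rw [← d1]
        _ = T0 := by rw [c1]; group
    have g3 : (y * x) * T2 * (y * x)⁻¹ = T1 := by
      calc (y * x) * T2 * (y * x)⁻¹ = y * (x * T2) * x⁻¹ * y⁻¹ := by group
        _ = y * T2 * y⁻¹ := by rw [c2]; group
        _ = T1 := by rw [← d2]
    have e' : (y * x) * (y * T1 * y⁻¹) * (y * x)⁻¹ =
        (y * x) * (T1⁻¹ * T2 * T1) * (y * x)⁻¹ := by rw [e]
    have l1 : (y * x) * (y * T1 * y⁻¹) * (y * x)⁻¹ = ((y * x) * y * (y * x)⁻¹) *
        ((y * x) * T1 * (y * x)⁻¹) * ((y * x) * y * (y * x)⁻¹)⁻¹ := by group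
    have l2 : (y * x) * (T1⁻¹ * T2 * T1) * (y * x)⁻¹ = ((y * x) * T1 * (y * x)⁻¹)⁻¹ *
        ((y * x) * T2 * (y * x)⁻¹) * ((y * x) * T1 * (y * x)⁻¹) := by group
    rw [l1, l2, g1, g2, g3] at e'
    exact e'

end Conj

/-! ## The theorem -/

open SemidirectProduct in
/-- **BRB** -/
theorem brb : BrbStmt := by
  intro n hA
  obtain ⟨φ, hφ⟩ := exists_phi n
  have hK : RF (Fr n ⋊[φ] Gp (CoxeterMatrix.A n)) :=
    Art.H63.semi φ inferInstance (Art.H69.free (n + 1)) hA
  -- conjugation in the semidirect product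
  have cn : ∀ (i : Fin n) (x : Fr n), (inr (gen _ i) : Fr n ⋊[φ] Gp (CoxeterMatrix.A n)) * inl x
      = inl (sig i x) * inr (gen _ i) := by
    intro i x
    rw [← hφ, inl_aut]
    simp
  let f : Fin (n + 1) → Fr n ⋊[φ] Gp (CoxeterMatrix.A n) := fun i =>
    if h : i.1 < n then inr (gen _ ⟨i.1, h⟩) else inl (X i)
  have f1 : ∀ (i : Fin (n + 1)) (h : i.1 < n), f i = inr (gen _ ⟨i.1, h⟩) := by
    intro i h
    simp only [f, dif_pos h]
  have f2 : ∀ (i : Fin (n + 1)) (h : i.1 = n), f i = inl (X i) := by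
    intro i h
    simp only [f, dif_neg (show ¬ i.1 < n by omega)]
  obtain ⟨Θ, hΘ⟩ := liftB f
    (by
      intro i j hij hj
      rw [f1 i (by omega), f1 j hj]
      simp only [← map_mul]
      rw [relA_adj (show (⟨i.1, by omega⟩ : Fin n).1 + 1 = (⟨j.1, hj⟩ : Fin n).1 from hij)])
    (by
      intro i j hij
      rw [f1 i (by have := j.2; omega)]
      rcases Nat.lt_or_ge j.1 n with hj | hj
      · rw [f1 j hj]
        simp only [← map_mul]
        rw [relA_far (show (⟨i.1, by omega⟩ : Fin n).1 + 2 ≤ (⟨j.1, hj⟩ : Fin n).1 from hij)]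
      · have hj' : j.1 = n := by have := j.2; omega
        rw [f2 j hj', cn, sig_c _ j]
        · show j.1 ≠ i.1
          omega
        · show j.1 ≠ i.1 + 1
          omega)
    (by
      intro i j hij hj
      rw [f1 i (by omega), f2 j hj]
      have hb := sig_b (n := n) ⟨i.1, by omega⟩ i rfl j hij.symm
      have ha := sig_a (n := n) ⟨i.1, by omega⟩ i rfl j hij.symm
      set B : Fr n ⋊[φ] Gp (CoxeterMatrix.A n) := inr (gen _ ⟨i.1, by omega⟩) with hB
      have c1 : B * inl (X j) = inl (X i) * B := by rw [hB, cn, hb]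
      have c2 : B * inl (X i) = inl ((X i)⁻¹ * X j * X i) * B := by rw [hB, cn, ha]
      calc B * inl (X j) * B * inl (X j) = (B * inl (X j)) * (B * inl (X j)) := by
            simp only [mul_assoc]
        _ = inl (X i) * (B * inl (X i)) * B := by rw [c1]; simp only [mul_assoc]
        _ = inl (X i * ((X i)⁻¹ * X j * X i)) * B * B := by
            rw [c2, map_mul _ (X i)]; simp only [mul_assoc]
        _ = inl (X j * X i) * B * B := by congr 3; group
        _ = inl (X j) * (inl (X i) * B) * B := by rw [map_mul]; simp only [mul_assoc]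
        _ = inl (X j) * B * inl (X j) * B := by rw [← c1]; simp only [mul_assoc])
  -- the left inverse
  let s : ℕ → Gp (CoxeterMatrix.B (n + 1)) := fun i =>
    if h : i < n then gen _ ⟨i, by omega⟩ else 1
  let t : Gp (CoxeterMatrix.B (n + 1)) := gen _ (Fin.last n)
  have hs : ∀ (i : ℕ) (h : i < n), s i = gen _ ⟨i, by omega⟩ := by
    intro i h
    simp only [s, dif_pos h]
  have h1 : ∀ i, i + 1 < n → s i * s (i + 1) * s i = s (i + 1) * s i * s (i + 1) := by
    intro i hi
    rw [hs i (by omega), hs (i + 1) hi]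
    exact relB_adj rfl hi
  have h2 : ∀ i j, i + 2 ≤ j → j < n → s i * s j = s j * s i := by
    intro i j hij hj
    rw [hs i (by omega), hs j hj]
    exact relB_far hij
  have h3 : ∀ i, i + 1 = n → s i * t * s i * t = t * s i * t * s i := by
    intro i hi
    rw [hs i (by omega)]
    exact relB_last (by rw [Fin.val_last]; exact hi) (Fin.val_last n)
  have h4 : ∀ i, i + 1 < n → s i * t = t * s i := by
    intro i hi
    rw [hs i (by omega)]
    exact relB_far (by rw [Fin.val_last]; exact hi)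
  obtain ⟨q, hq⟩ := liftA (n := n) (fun i => s i.1)
    (by
      intro i j hij
      show s i.1 * s j.1 * s i.1 = s j.1 * s i.1 * s j.1
      rw [← hij]
      exact h1 i.1 (by have := j.2; omega))
    (by
      intro i j hij
      exact h2 i.1 j.1 hij j.2)
  let g : Fr n →* Gp (CoxeterMatrix.B (n + 1)) := FreeGroup.lift (fun j => TT n s t j.1)
  have hg : ∀ j, g (X j) = TT n s t j.1 := fun j => FreeGroup.lift_apply_of
  obtain ⟨Ξ, x1, x2⟩ := Art.H50.semiLift φ g q (Set.range (gen (CoxeterMatrix.A n)))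
    (closure_gen _) (by
    rintro _ ⟨i, rfl⟩ j
    rw [hφ, hq]
    change g (sig i (X j)) = s i.1 * g (X j) * (s i.1)⁻¹
    have hi := i.2
    by_cases ha : j.1 = i.1
    · obtain ⟨b, hb⟩ : ∃ b : Fin (n + 1), b.1 = i.1 + 1 := ⟨i.succ, Fin.val_succ i⟩
      rw [sig_a i j ha b hb, map_mul, map_mul, map_inv, hg, hg, ha, hb]
      exact (TT_conj h1 h2 h3 h4 (n - (i.1 + 1)) i.1 (by omega)).symm
    by_cases hb : j.1 = i.1 + 1
    · obtain ⟨a, ha⟩ : ∃ a : Fin (n + 1), a.1 = i.1 := ⟨i.castSucc, rfl⟩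
      rw [sig_b i a ha j hb, hg, hg, ha, hb]
      exact TT_step n s t i.1 hi
    · rw [sig_c i j ha hb, hg]
      have hj := j.2
      have : s i.1 * TT n s t j.1 = TT n s t j.1 * s i.1 := by
        rcases Nat.lt_or_ge j.1 i.1 with h | h
        · exact TT_comm2 h1 h2 h4 i.1 hi (i.1 - (j.1 + 1)) j.1 (by omega)
        · exact TT_comm1 h2 h4 i.1 (n - j.1) j.1 (by omega) (by omega)
      rw [this, mul_inv_cancel_right])
  have hinj : Function.Injective Θ := by
    have hid : Ξ.comp Θ = MonoidHom.id (Gp (CoxeterMatrix.B (n + 1))) := by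
      apply ext
      intro i
      change Ξ (Θ (gen _ i)) = gen _ i
      rw [hΘ]
      rcases Nat.lt_or_ge i.1 n with hi | hi
      · rw [f1 i hi, x2, hq]
        exact hs i.1 hi
      · have hi' : i.1 = n := by have := i.2; omega
        rw [f2 i hi', x1, hg, hi', TT_last]
        show gen _ (Fin.last n) = gen _ i
        congr 1
        exact Fin.ext hi'.symm
    intro u v huv
    have := congrArg Ξ huv
    have hu : Ξ (Θ u) = u := DFunLike.congr_fun hid u
    have hv : Ξ (Θ v) = v := DFunLike.congr_fun hid v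
    rwa [hu, hv] at this
  exact Art.H51.rf_of_injective Θ hinj hK

end Unf.H81
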