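import Pool.Agent.Helper12_UNF.Stmts

set_option autoImplicit false

/-!
# Squad UNF, module INJ
-/

namespace Unf.H81

open Art

/-- The image of the inclusion of the Artin group of `C`. -/
theorem mem_range_of_mem_P {S : Type} (M : CoxeterMatrix S) (C : Set S)
    (Φ : Gp (res M C) →* Gp M) (hΦ : ∀ s, Φ (gen (res M C) s) = gen M s.1) (a : Gp M)
    (ha : a ∈ P M C) : ∃ x, Φ x = a := by
  have h : P M C ≤ Φ.range := by
    unfold P
    rw [Subgroup.closure_le]
    rintro _ ⟨s, hs, rfl⟩
    exact ⟨gen (res M C) ⟨s, hs⟩, hΦ _⟩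
  exact h ha

/-- **INJ** -/
theorem inj (vdl : VdlStmt) : InjStmt := by
  intro S S' _ _ M M' θ C f hθ hf
  refine ⟨?_, ?_, ?_⟩
  · intro a ha h1
    obtain ⟨ι, hι⟩ := inc M C
    obtain ⟨ι', hι'⟩ := inc M' (f '' C)
    obtain ⟨φ, hφ⟩ := lift (res M C)
      (fun s : C => gen (res M' (f '' C)) ⟨f s.1, Set.mem_image_of_mem f s.2⟩) (by
        intro s t hst
        by_cases h : s = t
        · rw [h]
        have hne : s.1 ≠ t.1 := fun h' => h (Subtype.ext h')
        have e := (hf s.1 s.2 t.1 t.2 hne).2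
        rw [res_apply] at hst ⊢
        have := relHolds (res M' (f '' C)) ⟨f s.1, Set.mem_image_of_mem f s.2⟩
          ⟨f t.1, Set.mem_image_of_mem f t.2⟩
        rw [res_apply] at this
        simp only [e] at this
        exact this hst)
    have hg : ∀ y : (f '' C : Set S'), ∃ s : C, f s.1 = y.1 := by
      rintro ⟨_, s, hs, rfl⟩
      exact ⟨⟨s, hs⟩, rfl⟩
    choose g hg using hg
    obtain ⟨ψ, hψ⟩ := lift (res M' (f '' C)) (fun y => gen (res M C) (g y)) (by
        intro y z hyz
        by_cases h : y = z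
        · rw [h]
        have hne : (g y).1 ≠ (g z).1 := by
          intro h'
          apply h
          apply Subtype.ext
          rw [← hg y, ← hg z, h']
        have e := (hf (g y).1 (g y).2 (g z).1 (g z).2 hne).2
        rw [hg y, hg z] at e
        rw [res_apply] at hyz ⊢
        have := relHolds (res M C) (g y) (g z)
        rw [res_apply, ← e] at this
        exact this hyz)
    have hid : ψ.comp φ = MonoidHom.id _ := by
      apply ext
      intro s
      change ψ (φ (gen _ s)) = gen _ s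
      rw [hφ, hψ]
      congr 1
      apply Subtype.ext
      by_contra hne
      have := hg ⟨f s.1, Set.mem_image_of_mem f s.2⟩
      exact (hf _ (g ⟨f s.1, Set.mem_image_of_mem f s.2⟩).2 _ s.2 hne).1 this
    have hcomm : θ.comp ι = ι'.comp φ := by
      apply ext
      intro s
      change θ (ι (gen _ s)) = ι' (φ (gen _ s))
      rw [hι, hφ, hι', hθ _ s.2]
    obtain ⟨x, rfl⟩ := mem_range_of_mem_P M C ι hι a ha
    have h2 : ι' (φ x) = ι' 1 := by
      rw [map_one, ← h1]
      exact (DFunLike.congr_fun hcomm x).symm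
    have h3 : φ x = 1 := vdl M' (f '' C) ι' hι' h2
    have h4 : ψ (φ x) = x := DFunLike.congr_fun hid x
    rw [h3, map_one] at h4
    rw [← h4, map_one]
  · intro C' hC' z hz
    have h : P M' (f '' C') ≤ (P M C').map θ := by
      unfold P
      rw [Subgroup.closure_le]
      rintro _ ⟨_, ⟨s, hs, rfl⟩, rfl⟩
      refine ⟨gen M s, Subgroup.subset_closure ⟨s, hs, rfl⟩, hθ s (hC' hs)⟩
    obtain ⟨a, ha, hz'⟩ := h hz
    exact ⟨a, ha, hz'⟩
  · intro C' hC' a ha
    have h : P M C' ≤ (P M' (f '' C')).comap θ := by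
      unfold P
      rw [Subgroup.closure_le]
      rintro _ ⟨s, hs, rfl⟩
      show θ (gen M s) ∈ Subgroup.closure (gen M' '' (f '' C'))
      rw [hθ s (hC' hs)]
      exact Subgroup.subset_closure ⟨f s, ⟨s, hs, rfl⟩, rfl⟩
    exact h ha

end Unf.H81
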